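import Pool.Agent.H12.QN.Stmts

/-! # Row DIR: Dirichlet sums below Fejer kernels -/

set_option autoImplicit false

namespace Pool.QN

open Finset

namespace DIR18

theorem ee_nat (n : ℕ) (t : ℝ) : ee (n * t) = ee t ^ n := by
  unfold ee
  rw [← Complex.exp_nat_mul]
  congr 1
  push_cast
  ring

theorem norm_ee (t : ℝ) : ‖ee t‖ = 1 := by
  unfold ee
  exact Complex.norm_exp_ofReal_mul_I _

theorem DD_eq (L : ℕ) (t : ℝ) : DD L t = ∑ n ∈ range L, ee t ^ n := by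
  unfold DD
  exact sum_congr rfl fun n _ => ee_nat n t

theorem norm_DD_le (L : ℕ) (t : ℝ) : ‖DD L t‖ ≤ L := by
  rw [DD_eq]
  refine (norm_sum_le _ _).trans ?_
  simp only [norm_pow, norm_ee, one_pow, sum_const, card_range, nsmul_eq_mul, mul_one]
  exact le_rfl

theorem DD_mul (L : ℕ) (t : ℝ) : DD L t * (ee t - 1) = ee t ^ L - 1 := by
  rw [DD_eq]
  exact geom_sum_mul _ _

theorem norm_mul_le (L : ℕ) (t : ℝ) : ‖DD L t‖ * ‖ee t - 1‖ ≤ 2 := by
  rw [← norm_mul, DD_mul]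
  refine (norm_sub_le _ _).trans ?_
  rw [norm_pow, norm_ee, one_pow, norm_one]
  norm_num

theorem norm_pow_sub (n : ℕ) (t : ℝ) : ‖ee t ^ n - 1‖ ≤ n * ‖ee t - 1‖ := by
  rw [← DD_mul, norm_mul]
  exact mul_le_mul_of_nonneg_right (norm_DD_le n t) (norm_nonneg _)

theorem sum_le (K : ℕ) : ∑ n ∈ range K, (n : ℝ) ≤ (K : ℝ) ^ 2 / 2 := by
  induction K with
  | zero => simp
  | succ K ih =>
    rw [sum_range_succ]
    push_cast
    linarith only [ih]

theorem lower (K : ℕ) (t : ℝ) (h : (K : ℝ) * ‖ee t - 1‖ ≤ 1) : (K : ℝ) / 2 ≤ ‖DD K t‖ := by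
  have h1 : ‖(K : ℂ) - DD K t‖ ≤ (K : ℝ) ^ 2 / 2 * ‖ee t - 1‖ := by
    have h2 : (K : ℂ) - DD K t = -∑ n ∈ range K, (ee t ^ n - 1) := by
      rw [sum_sub_distrib, ← DD_eq]
      simp
    rw [h2, norm_neg]
    refine (norm_sum_le _ _).trans ?_
    refine (sum_le_sum fun n _ => norm_pow_sub n t).trans ?_
    rw [← sum_mul]
    exact mul_le_mul_of_nonneg_right (sum_le K) (norm_nonneg _)
  have h3 : (K : ℝ) ≤ ‖(K : ℂ) - DD K t‖ + ‖DD K t‖ := by
    have h4 := norm_add_le ((K : ℂ) - DD K t) (DD K t)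
    rw [sub_add_cancel, Complex.norm_natCast] at h4
    exact h4
  have h5 : (K : ℝ) ^ 2 / 2 * ‖ee t - 1‖ ≤ K / 2 := by
    have h6 : (K : ℝ) ^ 2 / 2 * ‖ee t - 1‖ = (K / 2) * (K * ‖ee t - 1‖) := by ring
    rw [h6]
    have h7 : (0 : ℝ) ≤ K / 2 := by positivity
    exact mul_le_of_le_one_right h7 h
  linarith only [h1, h3, h5]

theorem Fj_nonneg (j : ℕ) (t : ℝ) : 0 ≤ Fj j t := by
  unfold Fj
  positivity

theorem Fj_lower (j : ℕ) (t : ℝ) (h : (2 : ℝ) ^ j * ‖ee t - 1‖ ≤ 1) : (2 : ℝ) ^ j / 4 ≤ Fj j t := by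
  have h1 := lower (2 ^ j) t (by push_cast; exact h)
  push_cast at h1
  unfold Fj
  have hp : (0 : ℝ) < 2 ^ j := by positivity
  rw [le_div_iff₀ hp]
  have h2 : ((2 : ℝ) ^ j / 2) ^ 2 ≤ ‖DD (2 ^ j) t‖ ^ 2 :=
    pow_le_pow_left₀ (by positivity) h1 2
  linarith only [h2]

theorem Fj_zero (t : ℝ) : Fj 0 t = 1 := by
  unfold Fj
  rw [DD_eq]
  simp

end DIR18

open DIR18 in
theorem dir_thm : DIRStmt := by
  intro J L t hL
  have hle : ∀ j, j ≤ J → Fj j t ≤ ∑ j ∈ range (J + 1), Fj j t := by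
    intro j hj
    exact single_le_sum (f := fun j => Fj j t) (fun i _ => Fj_nonneg i t)
      (mem_range.2 (Nat.lt_succ_of_le hj))
  have hLJ : (L : ℝ) ≤ 2 ^ J := by exact_mod_cast hL
  set r := ‖ee t - 1‖ with hr
  have hr0 : 0 ≤ r := norm_nonneg _
  by_cases h1 : (2 : ℝ) ^ J * r ≤ 1
  · have h2 := Fj_lower J t h1
    have h3 := norm_DD_le L t
    have h4 := hle J le_rfl
    have h5 := Fj_nonneg J t
    linarith only [h2, h3, h4, h5, hLJ]
  rw [not_le] at h1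
  have hrpos : 0 < r := by
    by_contra hcon
    have h2 : r = 0 := le_antisymm (not_lt.1 hcon) hr0
    rw [h2, mul_zero] at h1
    linarith only [h1]
  by_cases h2 : 1 < r
  · have h3 := norm_mul_le L t
    have h4 := hle 0 (Nat.zero_le _)
    rw [Fj_zero] at h4
    have h5 : ‖DD L t‖ ≤ 2 := by
      have h6 : ‖DD L t‖ * 1 ≤ ‖DD L t‖ * r := mul_le_mul_of_nonneg_left h2.le (norm_nonneg _)
      linarith only [h3, h6]
    linarith only [h4, h5]
  rw [not_lt] at h2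
  -- the least j with 1 < 2 ^ j * r
  have hex : ∃ j : ℕ, 1 < (2 : ℝ) ^ j * r := ⟨J, h1⟩
  classical
  let m := Nat.find hex
  have hm : 1 < (2 : ℝ) ^ m * r := Nat.find_spec hex
  have hm0 : m ≠ 0 := by
    intro h
    rw [h, pow_zero, one_mul] at hm
    linarith only [hm, h2]
  obtain ⟨j, hj⟩ := Nat.exists_eq_succ_of_ne_zero hm0
  have hmJ : m ≤ J := Nat.find_min' hex h1
  have hj1 : (2 : ℝ) ^ j * r ≤ 1 := by
    have h3 := Nat.find_min hex (m := j) (by omega)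
    exact not_lt.1 h3
  have h3 := Fj_lower j t hj1
  have h4 := hle j (by omega)
  have h5 := norm_mul_le L t
  rw [← hr] at h5
  have h6 : (1 : ℝ) < 2 ^ j * 2 * r := by
    have h7 : (2 : ℝ) ^ m = 2 ^ j * 2 := by rw [hj, pow_succ]
    rw [← h7]
    exact hm
  have h8 : ‖DD L t‖ ≤ 4 * 2 ^ j := by
    by_contra hcon
    rw [not_le] at hcon
    have h9 : (4 * 2 ^ j) * r < ‖DD L t‖ * r := mul_lt_mul_of_pos_right hcon hrpos
    linarith only [h5, h6, h9]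
  linarith only [h3, h4, h8]

end Pool.QN
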